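import Pool.Agent.helper58.MC.E0
import Pool.Agent.helper84.MC.D

/-!
MC project (MP_ddb86a_co, target S11896), module E: cut bound.
-/

set_option autoImplicit false
open Finset Classical

namespace MCut

variable {F : Type*} [Field F] [Fintype F] [CharP F 2]

theorem cut_bound (τ : F →+ ZMod 2) (hτ : ∀ x, τ (x ^ 2) = τ x) (hnt : ∃ z, τ z ≠ 0)
    (W : AddSubgroup F) (hW : ∀ x, x ∈ W ↔ ∀ w ∈ W, τ (w * x) = 0) (h1 : (1 : F) ∈ W)
    (S : Finset (F × F)) :
    4 * Nat.card W * (univ.filter (fun p : (F × F) × (F × F) =>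
        p.1 ∈ S ∧ p.2 ∉ S ∧ AdjW W p.1 p.2)).card
      ≤ Nat.card W * (univ.filter (fun p : (F × F) × (F × F) => AdjW W p.1 p.2)).card
        + (Fintype.card F) ^ 3 :=
  cut_bound_of W h1 (fun x => psd τ hτ hnt W hW x) S

end MCut
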