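import Pool.Agent.helper79.MC.Base

/-!
MC project (MP_ddb86a_co, target S11896), module F: the quadratic extension `QuadraticAlgebra K 1 1`.
-/

set_option autoImplicit false
open Finset Classical

namespace MCut

section Fq

theorem no_root (K : Type*) [Field K] [Fintype K] (l : ℕ) (hl : Odd l)
    (hK : Fintype.card K = 2 ^ l) : ∀ r : K, r ^ 2 ≠ 1 + 1 * r := by
  intro r hr
  have h2 : (2 : K) = 0 := by
    have h := FiniteField.cast_card_eq_zero K
    rw [hK] at h
    push_cast at h
    exact eq_zero_of_pow_eq_zero h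
  have h3 : r ^ 3 = 1 := by
    have : r ^ 3 = r * r ^ 2 := by ring
    rw [this, hr]
    have : r * (1 + 1 * r) = r + r ^ 2 := by ring
    rw [this, hr]
    linear_combination r * h2
  have h4 : r ^ (2 ^ l) = r := by
    rw [← hK]
    exact FiniteField.pow_card r
  obtain ⟨m, rfl⟩ := hl
  have h5 : ∀ m : ℕ, ∃ k, 2 ^ (2 * m + 1) = 3 * k + 2 := by
    intro m
    induction m with
    | zero => exact ⟨0, rfl⟩
    | succ m ih =>
      obtain ⟨k, hk⟩ := ih
      refine ⟨4 * k + 2, ?_⟩
      have : 2 ^ (2 * (m + 1) + 1) = 4 * 2 ^ (2 * m + 1) := by ring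
      rw [this, hk]
      ring
  obtain ⟨k, hk⟩ := h5 m
  rw [hk, pow_add, pow_mul, h3, one_pow, one_mul, hr] at h4
  have : (1 : K) = 0 := by linear_combination h4
  exact one_ne_zero this

theorem quad_card (K : Type*) [Field K] [Fintype K] :
    Nat.card (QuadraticAlgebra K 1 1) = (Fintype.card K) ^ 2 := by
  rw [Nat.card_congr (QuadraticAlgebra.equivProd (1 : K) 1), Nat.card_prod, Nat.card_eq_fintype_card]
  ring

theorem quad_finite (K : Type*) [Field K] [Fintype K] : Finite (QuadraticAlgebra K 1 1) :=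
  Finite.of_equiv _ (QuadraticAlgebra.equivProd (1 : K) 1).symm

theorem quad_char (K : Type*) [Field K] [CharP K 2] : CharP (QuadraticAlgebra K 1 1) 2 :=
  charP_of_injective_algebraMap (R := K) (A := QuadraticAlgebra K 1 1)
    QuadraticAlgebra.algebraMap_injective 2

/-- `GaloisField 2 l` gives finite fields with `2 ^ l` elements. -/
theorem exists_K (l : ℕ) (hl : l ≠ 0) : ∃ (K : Type) (_ : Field K) (_ : Fintype K) (_ : CharP K 2),
    Fintype.card K = 2 ^ l := by
  have : Fact (Nat.Prime 2) := ⟨Nat.prime_two⟩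
  have : Fintype (GaloisField 2 l) := Fintype.ofFinite _
  refine ⟨GaloisField 2 l, inferInstance, inferInstance, inferInstance, ?_⟩
  rw [← Nat.card_eq_fintype_card]
  exact GaloisField.card 2 l hl

end Fq

end MCut
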