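import Pool.Agent.helper76.MC.Defs

/-! # Project MC, module D, third part: congruence multisets with a Tate class -/

namespace Pool.Agent.helper76.MC

open Finset Pool.Agent.helper34.DH Pool.Agent.helper76.FV Pool.Agent.helper76.LP
open Pool.Agent.helper76.UR
open Matrix (SpecialLinearGroup)

/-- the free representative of the class of a function -/
noncomputable def D_rep (m : ℕ) [NeZero m] (c : ZMod m → ℤ) : QZ →₀ ℤ :=
  ∑ x, if x = 0 then 0 else c x • Finsupp.single ((((x.val : ℚ) / m : ℚ)) : QZ) (1 : ℤ)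

theorem D_fract_val (m : ℕ) [NeZero m] (x : ZMod m) : Int.fract ((x.val : ℚ) / m) = (x.val : ℚ) / m := by
  have hm : (0 : ℚ) < m := by exact_mod_cast Nat.pos_of_ne_zero (NeZero.ne m)
  rw [Int.fract_eq_self]
  refine ⟨by positivity, ?_⟩
  rw [div_lt_one hm]
  exact_mod_cast ZMod.val_lt x

theorem D_pt_ne (m : ℕ) [NeZero m] (x : ZMod m) (hx : x ≠ 0) : ((((x.val : ℚ) / m : ℚ)) : QZ) ≠ 0 := by
  have hm : (0 : ℚ) < m := by exact_mod_cast Nat.pos_of_ne_zero (NeZero.ne m)
  rw [Ne, coe_eq_zero_iff, D_fract_val, div_eq_zero_iff]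
  rintro (h | h)
  · exact hx ((ZMod.val_eq_zero x).1 (by exact_mod_cast h))
  · exact absurd h hm.ne'

theorem D_mk_rep (m : ℕ) [NeZero m] (c : ZMod m → ℤ) : mk (D_rep m c) = LP.cls m c := by
  unfold D_rep LP.cls
  rw [_root_.map_sum]
  apply Finset.sum_congr rfl
  intro x _
  by_cases hx : x = 0
  · rw [if_pos hx, _root_.map_zero, hx]
    unfold cl
    rw [ZMod.val_zero, Nat.cast_zero, zero_div, F_zero, smul_zero]
  · rw [if_neg hx, _root_.map_zsmul]
    unfold cl F
    rw [rho_of_ne (D_pt_ne m x hx)]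

theorem D_fract_unit (m : ℕ) [NeZero m] (t : ℤ) (ht : IsCoprime t (m : ℤ)) (x : ZMod m) :
    Int.fract ((t : ℚ) * ((x.val : ℚ) / m)) =
      ((((ZMod.unitOfIsCoprime t ht : (ZMod m)ˣ) : ZMod m) * x).val : ℚ) / m := by
  have hm : (0 : ℚ) < m := by exact_mod_cast Nat.pos_of_ne_zero (NeZero.ne m)
  rw [ZMod.coe_unitOfIsCoprime]
  have h1 : (((t : ZMod m) * x).val : ℤ) = (t * x.val) % m := by
    have h2 : (t : ZMod m) * x = ((t * x.val : ℤ) : ZMod m) := by
      push_cast
      rw [ZMod.natCast_zmod_val]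
    rw [h2, ZMod.val_intCast]
  have h3 : (((t : ZMod m) * x).val : ℚ) = (((t * x.val) % m : ℤ) : ℚ) := by
    rw [← h1]; simp
  have h4 := Int.emod_add_mul_ediv (t * x.val) m
  have h5 : (((t * x.val) % m : ℤ) : ℚ) + m * (((t * x.val) / m : ℤ) : ℚ) = t * x.val := by
    exact_mod_cast h4
  rw [Int.fract_eq_iff]
  refine ⟨by positivity, ?_, (t * x.val) / m, ?_⟩
  · rw [div_lt_one hm]
    exact_mod_cast ZMod.val_lt _
  · rw [h3]
    field_simp
    linarith

theorem D_saw_neg (m : ℕ) [NeZero m] (x : ZMod m) : saw m (-x) = - saw m x := by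
  unfold saw
  by_cases hx : x = 0
  · simp [hx]
  · rw [if_neg hx, if_neg (neg_ne_zero.2 hx), ZMod.neg_val, if_neg hx]
    have h1 := ZMod.val_lt x
    push_cast [Nat.cast_sub h1.le]
    ring

theorem D_tate_sum (m : ℕ) [NeZero m] (c : ZMod m → ℤ) (hT : TateF (anti c)) (u : (ZMod m)ˣ) :
    ∑ x, c x * saw m ((u : ZMod m) * x) = 0 := by
  have h1 := hT u
  unfold anti at h1
  have h2 : ∑ x, c (-x) * saw m ((u : ZMod m) * x) =
      - ∑ x, c x * saw m ((u : ZMod m) * x) := by
    rw [← Equiv.sum_comp (Equiv.neg (ZMod m)), ← Finset.sum_neg_distrib]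
    apply Finset.sum_congr rfl
    intro x _
    rw [Equiv.neg_apply, neg_neg, mul_neg, D_saw_neg, mul_neg]
  simp_rw [sub_mul] at h1
  rw [Finset.sum_sub_distrib, h2] at h1
  linarith

/-- the weights of the representative vanish -/
theorem D_wt_rep (m : ℕ) [NeZero m] (c : ZMod m → ℤ) (hT : TateF (anti c)) (t : ℤ)
    (ht : IsCoprime t (m : ℤ)) : wt t (D_rep m c) = 0 := by
  have hm : (0 : ℚ) < m := by exact_mod_cast Nat.pos_of_ne_zero (NeZero.ne m)
  unfold D_rep
  rw [_root_.map_sum]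
  set u := ZMod.unitOfIsCoprime t ht with hu
  have h1 : ∀ x : ZMod m, wt t (if x = 0 then 0 else
      c x • Finsupp.single ((((x.val : ℚ) / m : ℚ)) : QZ) (1 : ℤ)) =
      ((c x * saw m ((u : ZMod m) * x) : ℤ) : ℚ) / (2 * m) := by
    intro x
    by_cases hx : x = 0
    · rw [if_pos hx, _root_.map_zero, hx, mul_zero]
      unfold saw
      simp
    · rw [if_neg hx, _root_.map_zsmul, wt_single, fr_smul, D_fract_unit m t ht]
      have hux : (u : ZMod m) * x ≠ 0 := by
        rw [Ne, Units.mul_right_eq_zero]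
        exact hx
      unfold saw
      rw [if_neg hux, zsmul_eq_mul, ← hu]
      push_cast
      field_simp
  rw [Finset.sum_congr rfl fun x _ => h1 x, ← Finset.sum_div]
  have h2 := D_tate_sum m c hT u
  have h3 : (∑ x : ZMod m, ((c x * saw m ((u : ZMod m) * x) : ℤ) : ℚ)) = 0 := by
    exact_mod_cast h2
  rw [h3, zero_div]

/-- transfer of the weights to all units -/
theorem D_tate_of_wt {l : ℕ} (z : Fin l → ℚ) (hz : ∀ i, Int.fract (z i) ≠ 0) (M : ℕ) (hM : 0 < M)
    (hMt : ∀ t : ℤ, IsCoprime t (M : ℤ) → wt t (helper34.DH.emb (ptsQ z)) = 0) : Tate z := by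
  refine ⟨hz, fun t ht => ?_⟩
  set Q : ℕ := ∏ i, (z i).den with hQ
  have hQ0 : 0 < Q := Finset.prod_pos fun i _ => (z i).den_pos
  have hcop : IsCoprime t (Q : ℤ) := by
    have : (Q : ℤ) = ∏ i, ((z i).den : ℤ) := by simp [Q]
    rw [this]
    exact IsCoprime.prod_right fun i _ => ht i
  obtain ⟨t', ht', hdiv⟩ := exists_lift Q M hQ0 hM t hcop
  have h1 : ∀ i, Int.fract ((t : ℚ) * z i) = Int.fract ((t' : ℚ) * z i) := by
    intro i
    apply FA_fract_congr
    have h2 : ((z i).den : ℤ) ∣ t' - t := (Int.natCast_dvd_natCast.2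
      (Finset.dvd_prod_of_mem (fun i => (z i).den) (mem_univ i))).trans hdiv
    obtain ⟨n, hn⟩ := FA_int_of_dvd (z i) (t' - t) h2
    refine ⟨-n, ?_⟩
    push_cast at hn ⊢
    linarith
  have h3 := hMt t' ht'
  rw [wt_ptsQ] at h3
  rw [Finset.sum_congr rfl fun i _ => h1 i]
  linarith

/-- multisets of torsion points have a common level -/
theorem D_level (s : Multiset QZ) : ∃ N : ℕ, 0 < N ∧ ∀ g ∈ s, N • g = 0 := by
  induction s using Multiset.induction_on with
  | empty => exact ⟨1, one_pos, by simp⟩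
  | cons a s ih =>
    obtain ⟨N, hN, h⟩ := ih
    obtain ⟨q, rfl⟩ := QuotientAddGroup.mk_surjective a
    have hq : q.den • (q : QZ) = 0 := by
      rw [← AddCircle.coe_nsmul, coe_eq_zero_iff, nsmul_eq_mul]
      have : (q.den : ℚ) * q = (q.num : ℚ) := by
        rw [mul_comm]; exact Rat.mul_den_eq_num q
      rw [this]
      exact Int.fract_intCast _
    refine ⟨q.den * N, Nat.mul_pos q.den_pos hN, ?_⟩
    intro g hg
    rcases Multiset.mem_cons.1 hg with rfl | hg
    · rw [mul_comm, mul_smul]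
      change N • (q.den • (q : QZ)) = 0
      rw [hq, smul_zero]
    · rw [mul_smul, h g hg, smul_zero]

/-- sums of fractional parts are integers for multisets with sum zero -/
theorem D_fr_sum (s : Multiset QZ) (t : ℤ) :
    (((s.map (fun g => fr (t • g))).sum : ℚ) : QZ) = t • s.sum := by
  induction s using Multiset.induction_on with
  | empty => simp
  | cons a s ih =>
    rw [Multiset.map_cons, Multiset.sum_cons, Multiset.sum_cons, AddCircle.coe_add, ih, smul_add]
    congr 1
    obtain ⟨q, rfl⟩ := QuotientAddGroup.mk_surjective a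
    change ((fr (t • (q : QZ)) : ℚ) : QZ) = t • (q : QZ)
    rw [fr_smul, ← AddCircle.coe_zsmul, zsmul_eq_mul]
    have h1 := Int.self_sub_fract ((t : ℚ) * q)
    have h2 : (t : ℚ) * q = Int.fract ((t : ℚ) * q) + (⌊(t : ℚ) * q⌋ : ℤ) := by linarith
    conv_rhs => rw [h2, coe_add_int]

theorem D_sum_sub (s : Multiset QZ) (t : ℤ) :
    (s.map (fun g => fr (t • g) - 1 / 2)).sum =
      (s.map (fun g => fr (t • g))).sum - (Multiset.card s : ℚ) / 2 := by
  induction s using Multiset.induction_on with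
  | empty => simp
  | cons a s ih =>
    rw [Multiset.map_cons, Multiset.sum_cons, Multiset.map_cons, Multiset.sum_cons, ih,
      Multiset.card_cons]
    push_cast
    ring

/-- a congruence multiset whose class is that of a Tate function is a Tate multiset -/
theorem D3_tate (hsum : ∀ c : Multiset QZ, IsCong c → c.sum = 0) (m : ℕ) [NeZero m]
    (c : ZMod m → ℤ) (hT : TateF (anti c)) (c₀ : Multiset QZ) (hc₀ : IsCong c₀) (j : ℤ)
    (h : LP.cls m c = mk (helper34.DH.emb c₀) + j • hh) : IsCongLef c₀ ∨ c₀ = 0 := by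
  by_cases h0 : c₀ = 0
  · exact Or.inr h0
  left
  refine ⟨hc₀, ?_⟩
  have hne : ∀ g ∈ c₀, g ≠ 0 := by
    obtain ⟨N, n, r, s, t, u, -, -, -, -, -, hc⟩ := hc₀
    intro g hg
    rw [hc] at hg
    exact (Multiset.mem_filter.1 hg).2
  have hR : helper34.DH.emb c₀ - D_rep m c + j • Finsupp.single half 1 ∈ R := by
    rw [← mk_eq_zero, _root_.map_add, _root_.map_sub, _root_.map_zsmul, D_mk_rep, h,
      ← rho_of_ne half_ne_zero, rho_half]
    abel
  obtain ⟨M, hM, hMt⟩ := wt_R _ hR
  have hmpos : 0 < m := Nat.pos_of_ne_zero (NeZero.ne m)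
  -- the weights vanish
  have hwt : ∀ t : ℤ, IsCoprime t ((2 * (m * M) : ℕ) : ℤ) → wt t (helper34.DH.emb c₀) = 0 := by
    intro t ht
    push_cast at ht
    have ht2 : IsCoprime t (2 : ℤ) := ht.of_mul_right_left
    have htm : IsCoprime t (m : ℤ) := ht.of_mul_right_right.of_mul_right_left
    have htM : IsCoprime t (M : ℤ) := ht.of_mul_right_right.of_mul_right_right
    have h1 := hMt t htM
    rw [_root_.map_add, _root_.map_sub, _root_.map_zsmul, D_wt_rep m c hT t htm, wt_single] at h1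
    have e4 : fr (t • half) = 1 / 2 := by
      unfold half
      rw [fr_smul]
      have hodd : Odd t := by
        by_contra hc
        rw [Int.not_odd_iff_even] at hc
        obtain ⟨c', hc'⟩ := hc
        obtain ⟨a, b, hab⟩ := ht2
        rw [hc'] at hab
        have h5 : 2 * (a * c' + b) = 1 := by linarith
        omega
      obtain ⟨c', hc'⟩ := hodd
      rw [hc', Int.fract_eq_iff]
      refine ⟨by norm_num, by norm_num, c', ?_⟩
      push_cast; ring
    rw [e4] at h1
    simpa using h1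
  have hpos : 0 < 2 * (m * M) := by positivity
  -- the cardinality is even
  have heven : ∃ r : ℕ, Multiset.card c₀ = 2 * r + 2 := by
    have h1 := hwt 1 isCoprime_one_left
    rw [wt_emb, D_sum_sub] at h1
    have h2 := D_fr_sum c₀ 1
    rw [hsum c₀ hc₀, smul_zero] at h2
    have h3 : (((c₀.map (fun g => fr ((1 : ℤ) • g))).sum : ℚ) : QZ) = 0 := h2
    rw [coe_eq_zero_iff] at h3
    obtain ⟨n, hn⟩ := int_of_fract h3
    rw [hn] at h1
    have h4 : (Multiset.card c₀ : ℚ) = 2 * n := by linarith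
    have h5 : (Multiset.card c₀ : ℤ) = 2 * n := by exact_mod_cast h4
    have h6 : 0 < Multiset.card c₀ := Multiset.card_pos.2 h0
    refine ⟨(n - 1).toNat, ?_⟩
    omega
  obtain ⟨r, hr⟩ := heven
  obtain ⟨N, hN, hNs⟩ := D_level c₀
  obtain ⟨z, hz⟩ := lift_pts N hN c₀ hNs (2 * r + 2) hr
  have : NeZero N := ⟨hN.ne'⟩
  refine ⟨N, r, z, hN, ?_, hz.symm⟩
  rw [isTateFermat_iff N hN, tateM_iff N hN]
  refine D_tate_of_wt (frac N z) ?_ (2 * (m * M)) hpos ?_
  · intro i
    have hg : ((frac N z i : ℚ) : QZ) ∈ c₀ := by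
      rw [← hz]
      exact Multiset.mem_map.2 ⟨i, Finset.mem_univ i, rfl⟩
    have := hne _ hg
    rwa [Ne, coe_eq_zero_iff] at this
  · intro t ht
    rw [← pts_eq, hz]
    exact hwt t ht

end Pool.Agent.helper76.MC
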