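import Pool.Agent.helper58.MC.D3

/-! # Project MC, module D: assembly from the three parts -/

namespace Pool.Agent.helper76.MC

open Finset Pool.Agent.helper34.DH Pool.Agent.helper76.FV Pool.Agent.helper76.LP
open Pool.Agent.helper76.UR
open Matrix (SpecialLinearGroup)

theorem final_mem_of (hsum : ∀ c : Multiset QZ, IsCong c → c.sum = 0)
    (h1 : ∀ (m : ℕ) [NeZero m] (c : ZMod m → ℤ), TateF (anti c) → LP.cls m c ∈ MG' →
      LP.cls m c ∈ MG)
    (h2 : ∀ q ∈ MG, ∃ (c₀ : Multiset QZ) (j : ℤ), IsCong c₀ ∧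
      q = mk (helper34.DH.emb c₀) + j • hh)
    (m : ℕ) [NeZero m] (c : ZMod m → ℤ) (hT : TateF (anti c))
    (h : LP.cls m c ∈ MG') : LP.cls m c ∈ EP IsCongLef := by
  obtain ⟨c₀, j, hc₀, hq⟩ := h2 _ (h1 m c hT h)
  rw [hq]
  refine (EP IsCongLef).add_mem ?_ ((EP IsCongLef).zsmul_mem
    (AddSubgroup.subset_closure (Or.inr rfl)) j)
  rcases D3_tate hsum m c hT c₀ hc₀ j hq with hL | h0
  · exact AddSubgroup.subset_closure (Or.inl ⟨c₀, hL, rfl⟩)
  · rw [h0, helper34.DH.emb_zero, _root_.map_zero]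
    exact (EP IsCongLef).zero_mem

end Pool.Agent.helper76.MC
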