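import Pool.Agent.helper79.MC.Base

/-!
MC project (MP_ddb86a_co, target S11896), module E: number of edges and cut bound.
-/

set_option autoImplicit false
open Finset Classical

namespace MCut

section E
variable {F : Type*} [Field F] [Fintype F] [CharP F 2]

theorem pairs_card (W : AddSubgroup F) :
    (univ.filter (fun p : (F × F) × (F × F) => AdjW W p.1 p.2)).card
      = (Fintype.card F) ^ 2 * ((Fintype.card F - 1) * Nat.card W) := by
  have h2 : (2 : F) = 0 := CharTwo.two_eq_zero
  have hW : Nat.card W = (univ.filter (fun w : F => w ∈ W)).card := by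
    rw [Nat.card_eq_fintype_card, Fintype.card_subtype]
  have hD : Fintype.card F - 1 = (univ.filter (fun w : F => w ≠ 0)).card := by
    rw [Finset.filter_ne', Finset.card_erase_of_mem (Finset.mem_univ _), Finset.card_univ]
  have hP : (Fintype.card F) ^ 2 = (univ : Finset (F × F)).card := by
    rw [Finset.card_univ, Fintype.card_prod]; ring
  rw [hW, hD, hP, ← Finset.card_product, ← Finset.card_product]
  refine Finset.card_bij' (fun p _ => (p.1, (p.1.1 + p.2.1, gg p.1 p.2)))
    (fun t _ => (t.1, (t.1.1 + t.2.1, t.1.2 + (t.1.1 + t.2.1) * t.2.1 + t.2.2 * t.2.1 ^ 2))) ?_ ?_ ?_ ?_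
  · rintro ⟨⟨u, b⟩, ⟨u', b'⟩⟩ h
    simp only [Finset.mem_filter, Finset.mem_univ, true_and] at h
    simp only [Finset.mem_product, Finset.mem_filter, Finset.mem_univ, true_and]
    exact ⟨add_ne_zero_of_ne h.1, h.2⟩
  · rintro ⟨⟨u, b⟩, ⟨D, w⟩⟩ h
    simp only [Finset.mem_product, Finset.mem_filter, Finset.mem_univ, true_and] at h
    simp only [Finset.mem_filter, Finset.mem_univ, true_and]
    obtain ⟨hD0, hw⟩ := h
    refine ⟨?_, ?_⟩
    · intro h
      apply hD0
      have h' : u = u + D := h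
      linear_combination -h'
    · have : gg (u, b) (u + D, b + (u + D) * D + w * D ^ 2) = w := by
        unfold gg
        have e1 : u + (u + D) = D := by linear_combination u * h2
        simp only [e1]
        field_simp
        linear_combination (b + (u + D) * D) * h2
      rw [this]
      exact hw
  · rintro ⟨⟨u, b⟩, ⟨u', b'⟩⟩ h
    simp only [Finset.mem_filter, Finset.mem_univ, true_and] at h
    have hne : u + u' ≠ 0 := add_ne_zero_of_ne h.1
    have e1 : u + (u + u') = u' := by linear_combination u * h2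
    simp only [Prod.mk.injEq, true_and, e1]
    unfold gg
    simp only
    rw [div_mul_cancel₀ _ (pow_ne_zero 2 hne)]
    linear_combination (b + u' * (u + u')) * h2
  · rintro ⟨⟨u, b⟩, ⟨D, w⟩⟩ h
    simp only [Finset.mem_product, Finset.mem_filter, Finset.mem_univ, true_and] at h
    obtain ⟨hD0, hw⟩ := h
    have e1 : u + (u + D) = D := by linear_combination u * h2
    simp only [Prod.mk.injEq, true_and, e1]
    unfold gg
    simp only [e1]
    field_simp
    linear_combination (b + (u + D) * D) * h2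

theorem cut_bound_of (W : AddSubgroup F) (h1 : (1 : F) ∈ W)
    (hpsd : ∀ x : F × F → ℝ, 0 ≤ (Nat.card W : ℝ) * ∑ P : F × F, ∑ R : F × F,
      (if AdjW W P R then x P * x R else 0) + (Fintype.card F : ℝ) * ∑ P : F × F, x P ^ 2)
    (S : Finset (F × F)) :
    4 * Nat.card W * (univ.filter (fun p : (F × F) × (F × F) =>
        p.1 ∈ S ∧ p.2 ∉ S ∧ AdjW W p.1 p.2)).card
      ≤ Nat.card W * (univ.filter (fun p : (F × F) × (F × F) => AdjW W p.1 p.2)).card
        + (Fintype.card F) ^ 3 := by
  have h := hpsd (fun P => if P ∈ S then 1 else -1)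
  set N := (univ.filter (fun p : (F × F) × (F × F) => AdjW W p.1 p.2)).card with hN
  set c := (univ.filter (fun p : (F × F) × (F × F) => p.1 ∈ S ∧ p.2 ∉ S ∧ AdjW W p.1 p.2)).card with hc
  have e1 : ∑ P : F × F, (if P ∈ S then (1 : ℝ) else -1) ^ 2 = (Fintype.card F : ℝ) ^ 2 := by
    have : ∀ P : F × F, (if P ∈ S then (1 : ℝ) else -1) ^ 2 = 1 := by
      intro P; split_ifs <;> norm_num
    rw [Finset.sum_congr rfl fun P _ => this P, Finset.sum_const, Finset.card_univ, Fintype.card_prod,
      nsmul_eq_mul, mul_one]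
    push_cast
    ring
  have hc' : c = (univ.filter (fun p : (F × F) × (F × F) => p.1 ∉ S ∧ p.2 ∈ S ∧ AdjW W p.1 p.2)).card := by
    rw [hc]
    refine Finset.card_bij' (fun p _ => p.swap) (fun p _ => p.swap) ?_ ?_ ?_ ?_
    · rintro ⟨P, R⟩ hp
      simp only [Finset.mem_filter, Finset.mem_univ, true_and, Prod.swap] at hp ⊢
      exact ⟨hp.2.1, hp.1, hp.2.2.symm h1⟩
    · rintro ⟨P, R⟩ hp
      simp only [Finset.mem_filter, Finset.mem_univ, true_and, Prod.swap] at hp ⊢
      exact ⟨hp.2.1, hp.1, hp.2.2.symm h1⟩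
    · intro p _; simp
    · intro p _; simp
  have e2 : ∑ P : F × F, ∑ R : F × F, (if AdjW W P R then (if P ∈ S then (1 : ℝ) else -1) *
      (if R ∈ S then (1 : ℝ) else -1) else 0) = (N : ℝ) - 4 * c := by
    have e3 : ∀ P R : F × F, (if AdjW W P R then (if P ∈ S then (1 : ℝ) else -1) *
      (if R ∈ S then (1 : ℝ) else -1) else 0) = (if AdjW W P R then (1 : ℝ) else 0) -
        2 * (if P ∈ S ∧ R ∉ S ∧ AdjW W P R then (1 : ℝ) else 0) -
        2 * (if P ∉ S ∧ R ∈ S ∧ AdjW W P R then (1 : ℝ) else 0) := by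
      intro P R
      by_cases a : AdjW W P R <;> by_cases b : P ∈ S <;> by_cases c : R ∈ S <;> simp [a, b, c] <;> norm_num
    have s0 : ∑ P : F × F, ∑ R : F × F, (if AdjW W P R then (1 : ℝ) else 0) = N := by
      rw [hN, ← Fintype.sum_prod_type' (f := fun P R => if AdjW W P R then (1 : ℝ) else 0), Finset.sum_boole]
    have s1 : ∑ P : F × F, ∑ R : F × F, (if P ∈ S ∧ R ∉ S ∧ AdjW W P R then (1 : ℝ) else 0) = c := by
      rw [hc, ← Fintype.sum_prod_type' (f := fun P R => if P ∈ S ∧ R ∉ S ∧ AdjW W P R then (1 : ℝ) else 0),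
        Finset.sum_boole]
    have s2 : ∑ P : F × F, ∑ R : F × F, (if P ∉ S ∧ R ∈ S ∧ AdjW W P R then (1 : ℝ) else 0) = c := by
      rw [hc', ← Fintype.sum_prod_type' (f := fun P R => if P ∉ S ∧ R ∈ S ∧ AdjW W P R then (1 : ℝ) else 0),
        Finset.sum_boole]
    simp only [e3, Finset.sum_sub_distrib, ← Finset.mul_sum]
    rw [s0, s1, s2]
    ring
  rw [e1, e2] at h
  have h3 : (4 : ℝ) * Nat.card W * c ≤ Nat.card W * N + (Fintype.card F : ℝ) ^ 3 := by nlinarith
  exact_mod_cast h3

end E

end MCut
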