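import Pool.Agent.helper76.MC.Defs
import Pool.Agent.helper97.FQ.NE

/-! # Project MC, module N1: the general decomposition -/

namespace Pool.Agent.helper76.MC

open Finset Pool.Agent.helper34.DH Pool.Agent.helper76.FV Pool.Agent.helper76.LP
open Pool.Agent.helper76.UR
open Matrix (SpecialLinearGroup)

section N1
variable {G ι : Type*} [CommGroup G]

theorem N1_zero (Γ : ι → Subgroup G) (L : List ι) : MDv Γ L (fun _ => 0) := by
  induction L with
  | nil => intro x; rfl
  | cons i L ih =>
    intro u _
    simpa using ih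

theorem N1_add (Γ : ι → Subgroup G) (L : List ι) (f g : G → ℤ) (hf : MDv Γ L f)
    (hg : MDv Γ L g) : MDv Γ L (fun x => f x + g x) := by
  induction L generalizing f g with
  | nil =>
    intro x
    have h1 : f x = 0 := hf x
    have h2 : g x = 0 := hg x
    simp [h1, h2]
  | cons i L ih =>
    intro u hu
    have h := ih (fun x => f (u * x) - f x) (fun x => g (u * x) - g x) (hf u hu) (hg u hu)
    have e : (fun x => f (u * x) + g (u * x) - (f x + g x)) =
        fun x => (f (u * x) - f x) + (g (u * x) - g x) := by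
      funext x
      ring
    simp only [e]
    exact h

theorem N1_sub (Γ : ι → Subgroup G) (L : List ι) (f g : G → ℤ) (hf : MDv Γ L f)
    (hg : MDv Γ L g) : MDv Γ L (fun x => f x - g x) := by
  have h := N1_add Γ L f (fun x => - g x) hf (NE_mdv_neg Γ L g hg)
  simpa only [← sub_eq_add_neg] using h

theorem N1_trans (Γ : ι → Subgroup G) (L : List ι) (f : G → ℤ) (hf : MDv Γ L f) (a : G) :
    MDv Γ L (fun x => f (a * x)) := by
  induction L generalizing f with
  | nil => intro x; exact hf (a * x)
  | cons i L ih =>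
    intro u hu
    have h := ih (fun x => f (u * x) - f x) (hf u hu)
    have e : (fun x => f (a * (u * x)) - f (a * x)) =
        fun x => (fun y => f (u * y) - f y) (a * x) := by
      funext x
      simp only
      rw [mul_left_comm]
    simp only [e]
    exact h

theorem N1_par_congr (ν : ι → G) (L : List ι) (f g : G → ℤ) (h : ∀ x, Even (f x - g x)) :
    ∀ x, Even (par ν L f x - par ν L g x) := by
  induction L generalizing f g with
  | nil => exact h
  | cons i L ih =>
    apply ih (fun x => f (ν i * x) + f x) (fun x => g (ν i * x) + g x)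
    intro x
    have e : f (ν i * x) + f x - (g (ν i * x) + g x) =
        (f (ν i * x) - g (ν i * x)) + (f x - g x) := by ring
    simp only [e]
    exact (h _).add (h _)

theorem N1_sq (ν : ι → G) (L : List ι) (h : ∀ j ∈ L, ν j * ν j = 1) :
    (L.map ν).prod * (L.map ν).prod = 1 := by
  induction L with
  | nil => simp
  | cons i L ih =>
    rw [List.map_cons, List.prod_cons, mul_mul_mul_comm, h i List.mem_cons_self, one_mul]
    exact ih (fun j hj => h j (List.mem_cons_of_mem _ hj))

theorem N1_mem (Γ : ι → Subgroup G) (ν : ι → G) (L : List ι) (h : ∀ j ∈ L, ν j ∈ Γ j) :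
    (L.map ν).prod ∈ Pl Γ L := by
  induction L with
  | nil => simp [Pl]
  | cons i L ih =>
    rw [List.map_cons, List.prod_cons]
    exact Subgroup.mul_mem_sup (h i List.mem_cons_self)
      (ih (fun j hj => h j (List.mem_cons_of_mem _ hj)))

theorem N1_ne (Γ : ι → Subgroup G) (ν : ι → G) (L : List ι) (hL : L ≠ []) (hI : Indep Γ L)
    (h : ∀ j ∈ L, ν j ∈ Γ j ∧ ν j ≠ 1) : (L.map ν).prod ≠ 1 := by
  rcases L with _ | ⟨i, L⟩
  · exact absurd rfl hL
  · rw [List.map_cons, List.prod_cons]
    intro h1
    have h2 : ν i = ((L.map ν).prod)⁻¹ := eq_inv_of_mul_eq_one_left h1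
    have h3 : ν i ∈ Pl Γ L := by
      rw [h2]
      exact (Pl Γ L).inv_mem (N1_mem Γ ν L (fun j hj => (h j (List.mem_cons_of_mem _ hj)).1))
    exact (h i List.mem_cons_self).2
      (Subgroup.disjoint_def.1 hI.1 (h i List.mem_cons_self).1 h3)

theorem N1_rep (t : G) (h2 : t * t = 1) (h1 : t ≠ 1) :
    ∃ R : G → Prop, ∀ x, (R x ∧ ¬ R (t * x)) ∨ (¬ R x ∧ R (t * x)) := by
  classical
  let S : G → Set G := fun x => {x, t * x}
  have hS : ∀ x, (S x).Nonempty := fun x => ⟨x, by simp [S]⟩
  have hSt : ∀ x, S (t * x) = S x := by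
    intro x
    simp only [S]
    rw [← mul_assoc, h2, one_mul, Set.pair_comm]
  let q : Set G → G := fun s => if h : s.Nonempty then h.some else 1
  have hq : ∀ x, q (S x) ∈ S x := by
    intro x
    simp only [q]
    rw [dif_pos (hS x)]
    exact (hS x).some_mem
  have hne : ∀ x : G, t * x ≠ x := fun x hx => h1 (mul_eq_right.1 hx)
  refine ⟨fun x => q (S x) = x, fun x => ?_⟩
  simp only [hSt]
  rcases hq x with h | h
  · left
    refine ⟨h, fun h' => ?_⟩
    rw [h] at h'
    exact hne x h'.symm
  · right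
    have h' : q (S x) = t * x := h
    refine ⟨fun h'' => ?_, h'⟩
    rw [h'] at h''
    exact hne x h''

theorem N1_main (Γ : ι → Subgroup G) (ν : ι → G) (i : ι) (L : List ι)
    (hI : Indep Γ (L ++ [i]))
    (hν : ∀ j ∈ L ++ [i], ν j ∈ Γ j ∧ ν j * ν j = 1 ∧ ν j ≠ 1) (s : ℤ) (hs : s = 1 ∨ s = -1)
    (H : G → ℤ) (hH : MDv Γ (L ++ [i]) H)
    (hodd : ∀ x, H (((L ++ [i]).map ν).prod * x) = s * H x)
    (hpar : s * (-1) ^ L.length = 1 → ∀ x, Even (par ν L H x)) :
    ∃ k : G → ℤ, MDv Γ (L ++ [i]) k ∧
      ∀ x, k x + s * k (((L ++ [i]).map ν).prod * x) = H x := by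
  classical
  induction L generalizing s H with
  | nil =>
    have hinv : ∀ u ∈ Γ i, ∀ x, H (u * x) = H x := by
      intro u hu x
      have h : H (u * x) - H x = 0 := hH u hu x
      linarith
    have hνi := hν i (by simp)
    have he : (([] ++ [i] : List ι).map ν).prod = ν i := by simp
    rw [he] at hodd ⊢
    rcases hs with rfl | rfl
    · have hev : ∀ x, Even (H x) := hpar (by simp)
      refine ⟨fun x => H x / 2, ?_, ?_⟩
      · intro u hu x
        simp only
        rw [hinv u hu x, sub_self]
      · intro x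
        simp only
        rw [hinv _ hνi.1 x]
        obtain ⟨r, hr⟩ := hev x
        omega
    · refine ⟨fun _ => 0, N1_zero Γ _, ?_⟩
      intro x
      have h1 := hodd x
      rw [hinv _ hνi.1 x] at h1
      simp only
      linarith
  | cons j L ih =>
    obtain ⟨hd, hI'⟩ := hI
    have hss : s * s = 1 := by rcases hs with rfl | rfl <;> norm_num
    have hνj := hν j (by simp)
    have hν' : ∀ j ∈ L ++ [i], ν j ∈ Γ j ∧ ν j * ν j = 1 ∧ ν j ≠ 1 := by
      intro j' hj'
      exact hν j' (List.mem_cons_of_mem _ hj')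
    set e : G := ((L ++ [i]).map ν).prod with hedef
    have he : (((j :: L) ++ [i]).map ν).prod = ν j * e := by
      rw [List.cons_append, List.map_cons, List.prod_cons]
    rw [he] at hodd ⊢
    have he2 : e * e = 1 := N1_sq ν _ (fun j' hj' => (hν' j' hj').2.1)
    have hemem : e ∈ Pl Γ (L ++ [i]) := N1_mem Γ ν _ (fun j' hj' => (hν' j' hj').1)
    have he1 : e ≠ 1 := N1_ne Γ ν _ (by simp) hI'
      (fun j' hj' => ⟨(hν' j' hj').1, (hν' j' hj').2.2⟩)
    have hHe : ∀ y, H (e * y) = s * H (ν j * y) := by
      intro y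
      have h := hodd (ν j * y)
      rw [← h]
      congr 1
      calc e * y = (ν j * ν j) * (e * y) := by rw [hνj.2.1, one_mul]
        _ = ν j * e * (ν j * y) := by simp only [mul_comm, mul_left_comm, mul_assoc]
    -- the difference
    let H' : G → ℤ := fun y => H y - H (ν j * y)
    have hH'md : MDv Γ (L ++ [i]) H' := by
      have h := NE_mdv_neg Γ (L ++ [i]) _ (hH (ν j) hνj.1)
      have e1 : (fun x => -(H (ν j * x) - H x)) = H' := by
        funext x
        simp only [H']
        ring
      rw [← e1]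
      exact h
    have hH'odd : ∀ x, H' (e * x) = (-s) * H' x := by
      intro x
      simp only [H']
      have h1 := hodd x
      rw [mul_assoc] at h1
      rw [hHe x, h1]
      ring
    have hs' : (-s) = 1 ∨ (-s) = -1 := by
      rcases hs with rfl | rfl
      · right; rfl
      · left; rfl
    obtain ⟨k', hk'md, hk'⟩ := ih hI' hν' (-s) hs' H' hH'md hH'odd (by
      intro h x
      have h0 : s * (-1) ^ (j :: L).length = 1 := by
        rw [List.length_cons, pow_succ]
        linarith
      have h1 := hpar h0 x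
      have h2 := N1_par_congr ν L H' (fun x => H (ν j * x) + H x) (fun y => by
        simp only [H']
        refine ⟨-H (ν j * y), by ring⟩) x
      have h3 : par ν L H' x = (par ν L H' x - par ν L (fun x => H (ν j * x) + H x) x) +
          par ν (j :: L) H x := by
        simp only [par]
        ring
      rw [h3]
      exact h2.add h1)
    -- the function `K0`
    let d : G → ℤ := fun y => k' y - H y
    have hd' : ∀ y, s * d (e * y) = d y := by
      intro y
      simp only [d]
      have h1 := hk' y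
      have h2 := hHe y
      simp only [H'] at h1
      rw [h2]
      have h3 : s * (k' (e * y) - s * H (ν j * y)) =
          s * k' (e * y) - (s * s) * H (ν j * y) := by ring
      rw [h3, hss]
      linarith
    obtain ⟨R, hR⟩ := N1_rep e he2 he1
    let K0 : G → ℤ := fun y => if R y then - d y else 0
    have hK0 : ∀ y, H y - K0 y - s * K0 (e * y) = k' y := by
      intro y
      simp only [K0]
      have h1 := hd' y
      rcases hR y with ⟨h2, h3⟩ | ⟨h2, h3⟩
      · rw [if_pos h2, if_neg h3]
        simp only [d]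
        ring
      · rw [if_neg h2, if_pos h3]
        have h4 : H y - 0 - s * -d (e * y) = H y + s * d (e * y) := by ring
        rw [h4, h1]
        simp only [d]
        ring
    obtain ⟨w, hw1, hw2, hw3⟩ := exists_retract (Γ j) (Pl Γ (L ++ [i])) hd
    obtain ⟨P, hP⟩ := N1_rep (ν j) hνj.2.1 hνj.2.2
    let k : G → ℤ := fun x => if P (w x) then K0 ((w x)⁻¹ * x)
      else H x - s * K0 (e * ((w x)⁻¹ * x))
    refine ⟨k, ?_, ?_⟩
    · intro g hg
      apply mdv_local
      intro x
      set a : G := w x with ha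
      have haΓ : a ∈ Γ j := hw1 x
      have hwb : ∀ b ∈ Pl Γ (L ++ [i]), w (b * x) = a := fun b hb => hw3 b hb x
      have hwgb : ∀ b ∈ Pl Γ (L ++ [i]), w (g * (b * x)) = g * a := fun b hb => by
        rw [hw2 g hg, hwb b hb]
      have hkb : ∀ b ∈ Pl Γ (L ++ [i]), k (b * x) = if P a then K0 (a⁻¹ * (b * x))
          else H (b * x) - s * K0 (e * (a⁻¹ * (b * x))) := by
        intro b hb
        simp only [k]
        rw [hwb b hb]
      have hkgb : ∀ b ∈ Pl Γ (L ++ [i]), k (g * (b * x)) = if P (g * a) then K0 (a⁻¹ * (b * x))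
          else H (g * (b * x)) - s * K0 (e * (a⁻¹ * (b * x))) := by
        intro b hb
        simp only [k]
        rw [hwgb b hb]
        have e1 : (g * a)⁻¹ * (g * (b * x)) = a⁻¹ * (b * x) := by
          rw [mul_inv, mul_comm g⁻¹, mul_assoc, inv_mul_cancel_left]
        rw [e1]
      have hHg : MDv Γ (L ++ [i]) (fun x => H (g * x) - H x) := hH g hg
      have hHa : MDv Γ (L ++ [i]) (fun x => H (a⁻¹ * x) - H x) := hH _ ((Γ j).inv_mem haΓ)
      have hk'a : MDv Γ (L ++ [i]) (fun x => k' (a⁻¹ * x)) := N1_trans Γ _ k' hk'md _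
      by_cases h1 : P (g * a) <;> by_cases h2 : P a
      · refine ⟨fun _ => 0, N1_zero Γ _, ?_⟩
        intro b hb
        simp only
        rw [hkb b hb, hkgb b hb, if_pos h1, if_pos h2, sub_self]
      · refine ⟨fun y => (H (a⁻¹ * y) - H y) - k' (a⁻¹ * y), N1_sub Γ _ _ _ hHa hk'a, ?_⟩
        intro b hb
        simp only
        rw [hkb b hb, hkgb b hb, if_pos h1, if_neg h2]
        have h3 := hK0 (a⁻¹ * (b * x))
        linarith
      · refine ⟨fun y => (k' (a⁻¹ * y) + (H (g * y) - H y)) - (H (a⁻¹ * y) - H y),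
          N1_sub Γ _ _ _ (N1_add Γ _ _ _ hk'a hHg) hHa, ?_⟩
        intro b hb
        simp only
        rw [hkb b hb, hkgb b hb, if_neg h1, if_pos h2]
        have h3 := hK0 (a⁻¹ * (b * x))
        linarith
      · refine ⟨fun y => H (g * y) - H y, hHg, ?_⟩
        intro b hb
        simp only
        rw [hkb b hb, hkgb b hb, if_neg h1, if_neg h2]
        ring
    · intro x
      have hwe : w (ν j * e * x) = ν j * w x := by
        rw [mul_assoc, hw2 _ hνj.1, hw3 e hemem]
      have hx0 : (w (ν j * e * x))⁻¹ * (ν j * e * x) = e * ((w x)⁻¹ * x) := by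
        rw [hwe, mul_inv]
        calc (ν j)⁻¹ * (w x)⁻¹ * (ν j * e * x) = ((ν j)⁻¹ * ν j) * (e * ((w x)⁻¹ * x)) := by
              simp only [mul_comm, mul_left_comm, mul_assoc]
          _ = _ := by rw [inv_mul_cancel, one_mul]
      have hee : e * (e * ((w x)⁻¹ * x)) = (w x)⁻¹ * x := by
        rw [← mul_assoc, he2, one_mul]
      simp only [k]
      rw [hx0, hwe, hodd x, hee]
      rcases hP (w x) with ⟨h1, h2⟩ | ⟨h1, h2⟩
      · rw [if_pos h1, if_neg h2]
        have h3 : s * (s * H x - s * K0 ((w x)⁻¹ * x)) =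
            (s * s) * H x - (s * s) * K0 ((w x)⁻¹ * x) := by ring
        rw [h3, hss]
        ring
      · rw [if_neg h1, if_pos h2]
        ring

theorem N1_sum_sub {ι : Type*} (L : List ι) (a b : ι → ℤ) :
    (L.map (fun j => a j - b j)).sum = (L.map a).sum - (L.map b).sum := by
  induction L with
  | nil => simp
  | cons i L ih => simp only [List.map_cons, List.sum_cons, ih]; ring

theorem nd_gen {G ι : Type*} [CommGroup G] (Γ : ι → Subgroup G) (L : List ι) (i : ι)
    (hnd : (L ++ [i]).Nodup) (hI : Indep Γ (L ++ [i])) (ν : ι → G)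
    (hν : ∀ j ∈ L ++ [i], ν j ∈ Γ j ∧ ν j * ν j = 1 ∧ ν j ≠ 1) (f : G → ℤ)
    (hodd : ∀ x, f (((L ++ [i]).map ν).prod * x) = - f x) (hf : MDv Γ (L ++ [i]) f)
    (hpar : Even (L ++ [i]).length → ∀ x, Even (par ν L f x)) :
    GDec Γ (L ++ [i]) ((L ++ [i]).map ν).prod f := by
  obtain ⟨k, hk1, hk2⟩ := N1_main Γ ν i L hI hν (-1) (Or.inr rfl) f hf
    (fun x => by rw [hodd x]; ring) (by
      intro h
      apply hpar
      rw [List.length_append, List.length_singleton]
      rcases Nat.even_or_odd L.length with h1 | h1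
      · rw [h1.neg_one_pow] at h
        norm_num at h
      · exact h1.add_one)
  obtain ⟨N, hN1, hN2⟩ := nd_exists Γ (L ++ [i]) hnd hI k hk1
  set e : G := ((L ++ [i]).map ν).prod with hedef
  have he2 : e * e = 1 := N1_sq ν _ (fun j hj => (hν j hj).2.1)
  refine ⟨fun j x => N j x - N j (e * x), ?_, ?_, ?_⟩
  · intro j hj u hu x
    simp only
    rw [hN1 j hj u hu x, mul_left_comm, hN1 j hj u hu]
  · intro x
    have h1 := hk2 x
    rw [hN2 x, hN2 (e * x)] at h1
    have h2 : ((L ++ [i]).map (fun j => N j x - N j (e * x))).sum =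
        ((L ++ [i]).map (fun j => N j x)).sum - ((L ++ [i]).map (fun j => N j (e * x))).sum := by
      exact N1_sum_sub _ _ _
    rw [h2]
    linarith
  · intro j hj x
    simp only
    rw [← mul_assoc, he2, one_mul]
    ring

end N1

end Pool.Agent.helper76.MC
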